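import Pool.Agent.H112R2.FinalGap

set_option autoImplicit false
open scoped Pointwise

namespace Pool.Agent.Results.MP_86f7a7_co.NearPFRProg

/-- Freiman theorem in torsion-free groups with progressions of rank `O(log 2K)` and
near-polynomial bounds. -/
theorem result {Z : Type*} [AddCommGroup Z] [DecidableEq Z]
    (htf : ∀ (n : ℕ) (x : Z), n ≠ 0 → n • x = 0 → x = 0) (K : ℝ) (A : Finset Z)
    (hA : A.Nonempty) (hK : ((A + A).card : ℝ) ≤ K * (A.card : ℝ)) :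
    ∃ (d : ℕ) (v : Fin d → Z) (N : Fin d → ℕ) (T : Finset Z),
      (d : ℝ) ≤ 300 * Real.log (2 * K) ∧ (∀ i, 1 ≤ N i) ∧
      (∀ m n : Fin d → ℕ, (∀ i, m i < N i) → (∀ i, n i < N i) →
        ∑ i, m i • v i = ∑ i, n i • v i → m = n) ∧
      ∏ i, N i ≤ A.card ∧
      (T.card : ℝ) ≤ (2 * K) ^ (17000 * (1 + Real.log (1 + Real.log (2 * K)))) ∧
      ∀ a ∈ A, ∃ t ∈ T, ∃ n : Fin d → ℕ, (∀ i, n i < N i) ∧ a = t + ∑ i, n i • v i :=
  H112.near_pfr_gap' htf hA hK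

end Pool.Agent.Results.MP_86f7a7_co.NearPFRProg
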